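import Pool.Agent.H311.PM.Schr

/-!
# The paraboloid estimate is the weakest of all maximal estimates for curved bodies

For `A ⊆ ℝᴺ` and an integrable `G` put `S(A)G(x) = ∫_A e^{2πi x·ξ} G(ξ) dξ`.

* If a measurable set `K ⊆ ℝᴺ` has, to second order, at least `n` positive principal curvatures at
  a boundary point `p` at which the radial direction is transversal, then the maximal estimate
  for the dilates of `K` with constant `C` implies the maximal estimate for the sublevel sets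
  `{ζ_n + ∑_{i<n} ζ_i² ≤ r}` of the paraboloid function in `ℝⁿ⁺¹`, with the same constant.
* The paraboloid estimate in `ℝⁿ⁺¹` implies the estimate of Q1 (balls) in `ℝⁿ`, with the
  same constant.
* It is equivalent to a Carleson type estimate along the Schrödinger flow.
-/

set_option autoImplicit false

open MeasureTheory Metric Set Filter Topology FourierTransform
open scoped ENNReal NNReal Real RealInnerProductSpace ContDiff SchwartzMap Pointwise

namespace Pool.Agent.Results.MP_ee701d_an.ParaboloidIsMinimal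

/-- Euclidean space `ℝⁿ` -/
abbrev E (n : ℕ) := EuclideanSpace ℝ (Fin n)

/-- `S(A)G(x) = ∫_A e^{2πi x·ξ} G(ξ) dξ` -/
noncomputable def S {n : ℕ} (A : Set (E n)) (G : E n → ℂ) (x : E n) : ℂ :=
  ∫ ξ in A, Complex.exp (2 * Real.pi * Complex.I * ((⟪x, ξ⟫ : ℝ) : ℂ)) * G ξ

/-- the estimate of Q1 with constant `C` (for the squares): `‖sup_{R>0} |S_R f|‖₂² ≤ C ‖f‖₂²` for
all Schwartz functions `f` on `ℝⁿ`, `S_R` the partial integral over the ball of radius `R` -/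
def BallEstimate (n : ℕ) (C : ℝ≥0) : Prop :=
  ∀ f : 𝓢(E n, ℂ),
    ∫⁻ x, (⨆ (R : ℝ) (_ : 0 < R), ‖S (closedBall (0 : E n) R) (𝓕 (f : E n → ℂ)) x‖ₑ) ^ 2 ≤
      C * ∫⁻ x, ‖f x‖ₑ ^ 2

/-- the maximal estimate for the dilates `R • K`, `R > 0`, with constant `C` -/
def DilateEstimate {N : ℕ} (K : Set (E N)) (C : ℝ≥0) : Prop :=
  ∀ f : 𝓢(E N, ℂ),
    ∫⁻ x, (⨆ (R : ℝ) (_ : 0 < R), ‖S (R • K) (𝓕 (f : E N → ℂ)) x‖ₑ) ^ 2 ≤
      C * ∫⁻ x, ‖f x‖ₑ ^ 2

/-- the maximal estimate in `ℝⁿ⁺¹` for the sets `{ζ_n + ∑_{i<n} ζ_i² ≤ r}`, `r ∈ ℝ`, with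
constant `C` -/
def ParaboloidEstimate (n : ℕ) (C : ℝ≥0) : Prop :=
  ∀ f : 𝓢(E (n + 1), ℂ),
    ∫⁻ x, (⨆ r : ℝ, ‖S {ζ : E (n + 1) | ζ (Fin.last n) + ∑ i : Fin n, ζ i.castSucc ^ 2 ≤ r}
      (𝓕 (f : E (n + 1) → ℂ)) x‖ₑ) ^ 2 ≤ C * ∫⁻ x, ‖f x‖ₑ ^ 2

/-- `sup_r |∫_{s ≤ r} e^{2πi t s} (U(t) G(·,s))(x) ds|` is bounded on `L²(ℝⁿ × ℝ)`, where
`U(t)g(x) = ∫ e^{2πi (x·ξ - t|ξ|²)} g(ξ) dξ` is the Schrödinger flow. The variable of `E (n+1)`
is `(x, t)` (space side) and `(ξ, s)` (frequency side); the last coordinate is `t`, resp. `s`. -/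
def SchrodingerCarlesonEstimate (n : ℕ) (C : ℝ≥0) : Prop :=
  ∀ G : E (n + 1) → ℂ, ContDiff ℝ ∞ G → HasCompactSupport G →
    ∫⁻ x : E (n + 1), (⨆ r : ℝ, ‖∫ ζ in {ζ : E (n + 1) | ζ (Fin.last n) ≤ r},
      Complex.exp (2 * Real.pi * Complex.I *
        ((⟪x, ζ⟫ - x (Fin.last n) * ∑ i : Fin n, ζ i.castSucc ^ 2 : ℝ) : ℂ)) * G ζ‖ₑ) ^ 2 ≤
      C * ∫⁻ ζ, ‖G ζ‖ₑ ^ 2

/-- The set `K` has second order contact at `p` with `{p + h | ℓ h + Q h h < 0}`. -/
def SecondOrderContact {N : ℕ} (K : Set (E N)) (p : E N) (ℓ : E N →L[ℝ] ℝ)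
    (Q : E N →L[ℝ] E N →L[ℝ] ℝ) : Prop :=
  ∀ ε : ℝ, 0 < ε → ∀ᶠ h in 𝓝 (0 : E N), (ℓ h + Q h h < -ε * ‖h‖ ^ 2 → p + h ∈ K) ∧
    (ε * ‖h‖ ^ 2 < ℓ h + Q h h → p + h ∉ K)

open Pool.Agent.H311.PM in
theorem par_of_dilates {N n : ℕ} {K : Set (E N)} (hKm : MeasurableSet K) {p : E N}
    {ℓ : E N →L[ℝ] ℝ} {Q : E N →L[ℝ] E N →L[ℝ] ℝ} (hK : SecondOrderContact K p ℓ Q)
    (hp : ℓ p ≠ 0) (v : Fin n → E N) (hv : ∀ i, ℓ (v i) = 0)
    (hQ : ∀ i j, Q (v i) (v j) = if i = j then 1 else 0) (C : ℝ≥0) (h : DilateEstimate K C) :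
    ParaboloidEstimate n C := by
  have h1 : SM (fun R : {R : ℝ // 0 < R} => (R : ℝ) • K) C := by
    intro f
    have h2 := h f
    simp_rw [iSup_subtype'] at h2
    exact h2
  exact SM.of_FM (v := pv n 0) (continuous_pv n 0).measurable
    (blow hKm hK hp v hv hQ (FM.of_SM h1))

open Pool.Agent.H311.PM in
theorem ball_of_paraboloid {n : ℕ} (hn : 1 ≤ n) (C : ℝ≥0) (h : ParaboloidEstimate n C) :
    BallEstimate n C := by
  have h1 : SM (fun r : ℝ => {ζ : E (n + 1) | pv n 0 ζ ≤ r}) C := h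
  have h2 := ball_of_par hn (FM.of_SM h1)
  have h3 : (fun R : ℝ => closedBall (0 : E n) R) = fun R : ℝ => {ξ : E n | ‖ξ‖ ≤ R} := by
    ext R ξ
    exact mem_closedBall_zero_iff
  rw [h3] at h2
  have h4 := SM.of_FM measurable_norm h2
  intro f
  refine le_trans (lintegral_mono fun x => ?_) (h4 f)
  refine pow_le_pow_left' (iSup₂_le fun R _ => ?_) 2
  refine le_trans (le_of_eq ?_)
    (le_iSup (fun r : ℝ => ‖I {ξ : E n | ‖ξ‖ ≤ r} (𝓕 (f : E n → ℂ)) x‖ₑ) R)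
  have h5 : closedBall (0 : E n) R = {ξ : E n | ‖ξ‖ ≤ R} := by
    ext ξ
    exact mem_closedBall_zero_iff
  rw [h5]
  rfl

/-- the unit ball -/
theorem par_of_ball {N n : ℕ} (hn : n + 1 ≤ N) (C : ℝ≥0) (h : BallEstimate N C) :
    ParaboloidEstimate n C := by
  have hK : DilateEstimate (closedBall (0 : E N) 1) C := by
    intro f
    refine le_trans (le_of_eq ?_) (h f)
    refine lintegral_congr fun x => ?_
    congr 1
    refine iSup_congr fun R => iSup_congr fun hR => ?_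
    rw [smul_unitClosedBall_of_nonneg hR.le]
  let i0 : Fin N := ⟨n, hn⟩
  let p : E N := EuclideanSpace.single i0 1
  let v : Fin n → E N := fun i => EuclideanSpace.single ⟨i, by omega⟩ 1
  have hpn : ‖p‖ = 1 := by simp [p]
  let Q : E N →L[ℝ] E N →L[ℝ] ℝ := innerSL ℝ
  have hQ : ∀ x y : E N, Q x y = ⟪x, y⟫ := fun _ _ => rfl
  refine par_of_dilates (K := closedBall (0 : E N) 1) measurableSet_closedBall (p := p)
    (ℓ := (2 : ℝ) • innerSL ℝ p) (Q := Q) ?_ ?_ v ?_ ?_ C hK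
  · intro ε hε
    refine Eventually.of_forall fun x => ?_
    have h1 : ‖p + x‖ ^ 2 = 1 + (2 * ⟪p, x⟫ + ⟪x, x⟫) := by
      rw [norm_add_sq_real, hpn, real_inner_self_eq_norm_sq]
      ring
    simp only [_root_.smul_apply, innerSL_apply_apply, smul_eq_mul, mem_closedBall_zero_iff, hQ]
    have h2 : 0 ≤ ε * ‖x‖ ^ 2 := by positivity
    constructor
    · intro h3
      have h4 : ‖p + x‖ ^ 2 ≤ 1 ^ 2 := by rw [h1]; linarith
      exact (sq_le_sq₀ (norm_nonneg _) zero_le_one).1 h4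
    · intro h3 h4
      have h5 : ‖p + x‖ ^ 2 ≤ 1 ^ 2 := (sq_le_sq₀ (norm_nonneg _) zero_le_one).2 h4
      rw [h1] at h5
      linarith
  · simp [hpn]
  · intro i
    have h6 : (⟨i, by omega⟩ : Fin N) ≠ i0 := by
      intro h7
      have := congrArg Fin.val h7
      have := i.isLt
      simp only [i0] at *
      omega
    have h7 : i0 ≠ (⟨i, by omega⟩ : Fin N) := h6.symm
    simp [p, v, EuclideanSpace.inner_single_left, h7]
  · intro i j
    rw [hQ]
    by_cases hij : i = j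
    · subst hij
      simp [v]
    · have h6 : (⟨i, by omega⟩ : Fin N) ≠ ⟨j, by omega⟩ := by
        intro h7
        exact hij (Fin.ext (Fin.mk.inj_iff.1 h7))
      rw [if_neg hij]
      simp [v, EuclideanSpace.inner_single_left, h6]

/-- **The paraboloid estimate is implied by the maximal estimate for the dilates of any body with
at least `n` positive curvatures at one boundary point, implies the estimate of Q1 in `ℝⁿ`, and is
a Carleson type estimate along the Schrödinger flow.** -/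
theorem result :
    (∀ (N n : ℕ) (K : Set (E N)), MeasurableSet K →
      ∀ (p : E N) (ℓ : E N →L[ℝ] ℝ) (Q : E N →L[ℝ] E N →L[ℝ] ℝ), SecondOrderContact K p ℓ Q →
        ℓ p ≠ 0 → (∃ v : Fin n → E N, (∀ i, ℓ (v i) = 0) ∧
          ∀ i j, Q (v i) (v j) = if i = j then 1 else 0) →
        ∀ C : ℝ≥0, DilateEstimate K C → ParaboloidEstimate n C) ∧
    (∀ (N n : ℕ), n + 1 ≤ N → ∀ C : ℝ≥0, BallEstimate N C → ParaboloidEstimate n C) ∧
    (∀ n : ℕ, 1 ≤ n → ∀ C : ℝ≥0, ParaboloidEstimate n C → BallEstimate n C) ∧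
    (∀ (n : ℕ) (C : ℝ≥0), ParaboloidEstimate n C ↔ SchrodingerCarlesonEstimate n C) := by
  refine ⟨?_, ?_, ?_, ?_⟩
  · rintro N n K hKm p ℓ Q hK hp ⟨v, hv, hQ⟩ C h
    exact par_of_dilates hKm hK hp v hv hQ C h
  · intro N n hn C h
    exact par_of_ball hn C h
  · intro n hn C h
    exact ball_of_paraboloid hn C h
  · intro n C
    exact Pool.Agent.H311.PM.sm_iff_schr

end Pool.Agent.Results.MP_ee701d_an.ParaboloidIsMinimal
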