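import Pool.Agent.H311.BP.Main2
import Pool.Agent.H311.BP.Window
import Pool.Agent.H311.BP.Strip
import Pool.Agent.H311.BP.Local

/-!
# Ball partial sums and bounded Lipschitz perturbations of the balls

For a bounded function `q` on `ℝⁿ` let `pball q R = {ξ : |ξ| + q(ξ) ≤ R}`, a set which differs from
the ball `{|ξ| ≤ R}` only in the shell `||ξ| - R| ≤ sup |q|`, and compare the partial integrals over
`pball q R` with the ball partial sums `S_R`.

If `q` is `λ`-Lipschitz with some `λ < 1`, then for EVERY square integrable function the difference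
of the two partial sums tends to zero almost everywhere, the supremum over `R` of the difference is
locally bounded in `L²`, and the estimate of Q1 is equivalent to the estimate on the unit ball for
the maximal operator of the perturbed balls, and also to the estimate on the unit ball for the
perturbed balls with the radii `0, h, 2h, 3h, …` only.

(The hand-in `ThinShellDivergence` shows that `λ = 1` is too large.)
-/

set_option autoImplicit false

open MeasureTheory Metric Filter Topology FourierTransform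
open scoped ENNReal NNReal RealInnerProductSpace SchwartzMap

namespace Pool.Agent.Results.MP_ee701d_an.PerturbedBalls

/-- Euclidean space -/
abbrev E (n : ℕ) := EuclideanSpace ℝ (Fin n)

/-- the partial integral `∫_A e^{2πi x·ξ} G(ξ) dξ` -/
noncomputable def S {n : ℕ} (A : Set (E n)) (G : E n → ℂ) (x : E n) : ℂ :=
  ∫ ξ in A, Complex.exp (2 * Real.pi * Complex.I * ((⟪x, ξ⟫ : ℝ) : ℂ)) * G ξ

/-- the perturbed ball -/
def pball {n : ℕ} (q : E n → ℝ) (R : ℝ) : Set (E n) := {ξ | ‖ξ‖ + q ξ ≤ R}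

/-- the estimate of Q1: the maximal ball partial sum operator is bounded on `L²(ℝⁿ)` -/
def MaximalEstimate (n : ℕ) : Prop :=
  ∃ C : ℝ≥0, ∀ f : 𝓢(E n, ℂ),
    ∫⁻ x, (⨆ (R : ℝ) (_ : 0 < R), ‖S (closedBall 0 R) (𝓕 (f : E n → ℂ)) x‖ₑ) ^ 2 ≤
      C * ∫⁻ x, ‖f x‖ₑ ^ 2

/-- the estimate on the unit ball for the perturbed balls with radii in a set `𝓡` -/
def LocalEstimate {n : ℕ} (q : E n → ℝ) (𝓡 : Set ℝ) : Prop :=
  ∃ C : ℝ≥0, ∀ f : 𝓢(E n, ℂ),
    ∫⁻ x in closedBall (0 : E n) 1, (⨆ R ∈ 𝓡, ‖S (pball q R) (𝓕 (f : E n → ℂ)) x‖ₑ) ^ 2 ≤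
      C * ∫⁻ x, ‖f x‖ₑ ^ 2

theorem result {n : ℕ} (hn : 1 ≤ n) (lam : ℝ≥0) (hlam : lam < 1) (M : ℝ) :
    -- (1) the maximal difference is locally in `L²`, uniformly in `q`
    (∀ ρ : ℝ, ∃ K : ℝ≥0, ∀ q : E n → ℝ, LipschitzWith lam q → (∀ ξ, |q ξ| ≤ M) →
      ∀ G : E n → ℂ, MemLp G 2 volume → ∀ x₀ : E n,
        ∫⁻ x in closedBall x₀ ρ, (⨆ R : ℝ, ‖S (pball q R) G x - S (closedBall 0 R) G x‖ₑ) ^ 2 ≤
          K * ∫⁻ ξ, ‖G ξ‖ₑ ^ 2) ∧
    ∀ q : E n → ℝ, LipschitzWith lam q → (∀ ξ, |q ξ| ≤ M) →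
      -- (2) equiconvergence almost everywhere
      (∀ G : E n → ℂ, MemLp G 2 volume → ∀ᵐ x : E n,
        Tendsto (fun R : ℝ => S (pball q R) G x - S (closedBall 0 R) G x) atTop (𝓝 0)) ∧
      -- (3) the question Q1 is a question on the perturbed balls
      (MaximalEstimate n ↔ LocalEstimate q Set.univ) ∧
      (∀ h : ℝ, 0 < h → (MaximalEstimate n ↔ LocalEstimate q {R | ∃ k : ℕ, R = h * k})) := by
  have hs := Pool.Agent.H311.BP.strip
  have hw := Pool.Agent.H311.BP.window Pool.Agent.H311.BP.local_bound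
  have hlipabs : ∀ (q : E n → ℝ), LipschitzWith lam q →
      ∀ ξ η, |q ξ - q η| ≤ (lam : ℝ) * ‖ξ - η‖ := by
    intro q hq ξ η
    have := hq.dist_le_mul ξ η
    rwa [Real.dist_eq, dist_eq_norm] at this
  have hlam' : (lam : ℝ) < 1 := by exact_mod_cast hlam
  refine ⟨?_, ?_⟩
  · intro ρ
    obtain ⟨K, hK⟩ := Pool.Agent.H311.BP.sup_dif hs hw n lam M ρ lam.2 hlam'
    exact ⟨K, fun q hq hqM G hG x₀ => hK q hqM (hlipabs q hq) G hG x₀⟩
  · intro q hq hqM
    have hq' := hlipabs q hq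
    have himp1 : MaximalEstimate n → LocalEstimate q Set.univ := by
      intro h
      obtain ⟨K, hK⟩ := Pool.Agent.H311.BP.loc_of_q1 hs hw hn lam M lam.2 hlam' q hqM
        hq' h
      refine ⟨K, fun f => le_trans (lintegral_mono fun x => ?_) (hK f)⟩
      refine pow_le_pow_left' (iSup₂_le fun R _ => ?_) 2
      exact le_iSup (fun R : ℝ => ‖Pool.Agent.H311.BP.I {ξ | ‖ξ‖ + q ξ ≤ R}
        (𝓕 (f : E n → ℂ)) x‖ₑ) R
    have himp2 : ∀ (h : ℝ), LocalEstimate q Set.univ →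
        LocalEstimate q {R | ∃ k : ℕ, R = h * k} := by
      rintro h ⟨K, hK⟩
      refine ⟨K, fun f => le_trans (lintegral_mono fun x => ?_) (hK f)⟩
      refine pow_le_pow_left' (iSup₂_le fun R _ => ?_) 2
      exact le_iSup₂_of_le R (Set.mem_univ R) le_rfl
    have himp3 : ∀ (h : ℝ), 0 < h → LocalEstimate q {R | ∃ k : ℕ, R = h * k} →
        MaximalEstimate n := by
      rintro h hh ⟨K, hK⟩
      refine Pool.Agent.H311.BP.q1_of_sep hs hw hn lam M lam.2 hlam' q hqM hq' hh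
        ⟨K, fun f => le_trans (lintegral_mono fun x => ?_) (hK f)⟩
      refine pow_le_pow_left' (iSup_le fun k => ?_) 2
      exact le_iSup₂_of_le (f := fun (R : ℝ) (_ : R ∈ {R | ∃ k : ℕ, R = h * k}) =>
        ‖S (pball q R) (𝓕 (f : E n → ℂ)) x‖ₑ) (h * k) ⟨k, rfl⟩ le_rfl
    refine ⟨?_, ⟨himp1, fun h => himp3 1 one_pos (himp2 1 h)⟩, fun h hh =>
      ⟨fun hQ => himp2 h (himp1 hQ), himp3 h hh⟩⟩
    intro G hG
    exact Pool.Agent.H311.BP.tendsto_dif hs hw n lam M lam.2 hlam' q hqM hq' G hG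

end Pool.Agent.Results.MP_ee701d_an.PerturbedBalls
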