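import Pool.Agent.H311.CB.AeFinal

/-!
# Smooth convex bodies close to the ball with divergence almost everywhere

For a set `A ⊆ ℝᵈ` let `S(A)f(x) = ∫_A e^{2πi x·ξ} f̂(ξ) dξ`. Question Q1 asks for the estimate
`‖sup_{R>0} |S(R•B)f|‖₂ ≤ C ‖f‖₂` for the ball `B = {‖ξ‖² ≤ 1}`, the strong form of the convergence
almost everywhere of `S(R•B)f`, `R → ∞`, for `f ∈ L²(ℝᵈ)`. For every `d ≥ 3` and `ε > 0` there is a
convex `C^∞` function `Θ` on `ℝᵈ` which is `ε`-close to `‖ζ‖²` in the `C¹` sense for `‖ζ‖ ≤ 2`, with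
positive definite Hessian at all points off the subspace `{ζ₀ = ζ₁ = 0}` of codimension two, such
that for the `C^∞` convex body `K = {Θ ≤ 1}` there is `f ∈ L²(ℝᵈ)` whose partial integrals `S(R•K)f(x)`
are unbounded as `R → ∞` for almost every `x` (and there is no maximal estimate). For `d = 3` the
boundary of `K` has positive curvature off two points.

Proof. `Θ` is the sum of `‖ζ‖²` (near the axis: of `ζ₂² + ⋯`) and a smooth convex function of
`(ζ₀, ζ₁)`, whose blow-ups at suitable points tending to `0` are prescribed piecewise linear sublinear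
functions. At small scales the dilates of `K` look like the translates of cones with many faces in
`ℝ³ × ℝᵈ⁻³`, and these put the terms of a sum of products of lacunary characters into the order of a
binary tree, for which the maximal function is large on a fixed proportion of every ball.
Gliding hump and the Lebesgue density theorem give the divergence almost everywhere.
-/

set_option autoImplicit false

open MeasureTheory Metric Set Filter Topology FourierTransform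
open scoped ENNReal NNReal Real RealInnerProductSpace ContDiff Pointwise SchwartzMap

namespace Pool.Agent.Results.MP_ee701d_an.SmoothConvexBodies

/-- Euclidean space `ℝᵈ` -/
abbrev E (d : ℕ) := EuclideanSpace ℝ (Fin d)

/-- `S(A)G(x) = ∫_A e^{2πi x·ξ} G(ξ) dξ` -/
noncomputable def S {d : ℕ} (A : Set (E d)) (G : E d → ℂ) (x : E d) : ℂ :=
  ∫ ξ in A, Complex.exp (2 * Real.pi * Complex.I * ((⟪x, ξ⟫ : ℝ) : ℂ)) * G ξ

/-- the `L²` norm squared of the maximal function `sup_{R>0} |S(R•K)f̂|` -/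
noncomputable def maxNormSq {d : ℕ} (K : Set (E d)) (f : 𝓢(E d, ℂ)) : ℝ≥0∞ :=
  ∫⁻ x, (⨆ (R : ℝ) (_ : 0 < R), ‖S (R • K) (𝓕 (f : E d → ℂ)) x‖ₑ) ^ 2

/-- there is `G ∈ L²(ℝᵈ)` such that for almost every `x` the partial integrals `S(R•K)G(x)` are
unbounded as `R → ∞`; by Plancherel `G = f̂` for some `f ∈ L²(ℝᵈ)` -/
def DivergesAE {d : ℕ} (K : Set (E d)) : Prop :=
  ∃ G : E d → ℂ, MemLp G 2 ∧ ∀ᵐ x : E d, ∀ B : ℝ, ∃ R : ℝ, B ≤ R ∧
    B < ‖S (R • K) G x‖

/-- the second derivative of `Θ` at `ζ` in direction `h` (at `h` of the Hessian form) -/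
noncomputable def hess {d : ℕ} (Θ : E d → ℝ) (ζ h : E d) : ℝ :=
  iteratedDeriv 2 (fun t : ℝ => Θ (ζ + t • h)) 0

theorem divergesAE_of_aeDiv {d : ℕ} {K : Set (E d)}
    (h : Pool.Agent.H311.CB.AeDiv K) : DivergesAE K := h

/-- **Smooth convex bodies with divergence almost everywhere, arbitrarily `C¹`-close to the ball.**
For `d ≥ 3` and `ε > 0` there is a convex `C^∞` function `Θ` on `ℝᵈ`, on the ball of radius `2` within
`ε` of `‖ζ‖²` together with its gradient, with `{Θ ≤ 1}` contained in that ball, with positive definite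
Hessian at all `ζ` with `(ζ₀, ζ₁) ≠ (0, 0)`, such that for some `f ∈ L²(ℝᵈ)` the partial integrals
over the dilates of the body `{Θ ≤ 1}` are unbounded at almost every point, and the maximal
estimate over the dilates fails. -/
theorem result {d : ℕ} (hd : 3 ≤ d) {ε : ℝ} (hε : 0 < ε) :
    ∃ Θ : E d → ℝ, ContDiff ℝ ∞ Θ ∧ ConvexOn ℝ univ Θ ∧
      (∀ ζ : E d, ‖ζ‖ ≤ 2 → |Θ ζ - ‖ζ‖ ^ 2| ≤ ε ∧ ‖gradient Θ ζ - (2 : ℝ) • ζ‖ ≤ ε) ∧
      {ζ | Θ ζ ≤ 1} ⊆ closedBall 0 2 ∧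
      (∀ ζ : E d, (ζ ⟨0, by omega⟩ ≠ 0 ∨ ζ ⟨1, by omega⟩ ≠ 0) → ∀ h : E d, h ≠ 0 →
        0 < hess Θ ζ h) ∧
      DivergesAE {ζ | Θ ζ ≤ 1} ∧
      ∀ C : ℝ≥0, ∃ f : 𝓢(E d, ℂ), C * ∫⁻ x, ‖f x‖ₑ ^ 2 < maxNormSq {ζ | Θ ζ ≤ 1} f := by
  obtain ⟨k, rfl⟩ : ∃ k, d = k + 3 := ⟨d - 3, by omega⟩
  obtain ⟨Θ, h1, h2, h3, h4, h5, h6, h7⟩ := Pool.Agent.H311.CB.smooth_ae k hε
  refine ⟨Θ, h1, h2, ?_, h4, ?_, divergesAE_of_aeDiv h6, ?_⟩
  · intro ζ hζ
    refine ⟨(h3 ζ hζ).1, ?_⟩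
    set g : E (k + 3) := gradient Θ ζ - (2 : ℝ) • ζ with hg
    by_cases hg0 : ‖g‖ = 0
    · rw [hg0]
      exact hε.le
    · have hpos : 0 < ‖g‖ := lt_of_le_of_ne (norm_nonneg _) (Ne.symm hg0)
      have h7 := (h3 ζ hζ).2 g
      have h8 : fderiv ℝ Θ ζ g = ⟪gradient Θ ζ, g⟫ := by
        rw [gradient, InnerProductSpace.toDual_symm_apply]
      have h9 : fderiv ℝ Θ ζ g - 2 * ⟪ζ, g⟫ = ‖g‖ ^ 2 := by
        rw [h8, ← real_inner_self_eq_norm_sq]
        conv_rhs => rw [hg, inner_sub_left]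
        rw [real_inner_smul_left]
      rw [h9, abs_of_nonneg (sq_nonneg _)] at h7
      nlinarith
  · intro ζ hζ h hh
    exact h5 ζ h hζ hh
  · intro C
    by_contra hcon
    push Not at hcon
    refine h7 C ?_
    refine Pool.Agent.H311.PM.FM.of_SM
      (𝒜 := fun R : {R : ℝ // 0 < R} => (R : ℝ) • {ζ : E (k + 3) | Θ ζ ≤ 1}) ?_
    intro f
    have h7 := hcon f
    unfold maxNormSq at h7
    simp_rw [iSup_subtype'] at h7
    exact h7

end Pool.Agent.Results.MP_ee701d_an.SmoothConvexBodies
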