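import Pool.Agent.H311.CB.AeFinal

/-!
# Typical convex bodies in `ℝᵈ`, `d ≥ 3`: divergence almost everywhere

For a set `A ⊆ ℝᵈ` let `S(A)f(x) = ∫_A e^{2πi x·ξ} f̂(ξ) dξ`. Question Q1 asks for the estimate
`‖sup_{R>0} |S(R•B)f|‖₂ ≤ C ‖f‖₂` for the ball `B`, the strong form of the convergence almost
everywhere of `S(R•B)f`, `R → ∞`, `f ∈ L²(ℝᵈ)`. In the space of all convex bodies of `ℝᵈ`, `d ≥ 3`,
with the Hausdorff metric, which is a Baire space, a typical body `K` (all bodies outside a meagre
set) has no such estimate, and there is even a function `f ∈ L²(ℝᵈ)` such that for almost every `x`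
the partial integrals `S(R•K)f(x)` are unbounded as `R → ∞`.

Proof. Consider the bodies for which there is a function of norm at most one in `L²`, with
frequencies outside a given ball, with partial integrals larger than `m` on a fixed
proportion of the first `m` balls of a countable base. They form an open set, and it is dense: every
convex body can be approximated by bodies which near some point `p` coincide with `p + V`, `V` any
prescribed convex cone (up to a linear map); in the dilates of such a body one sees at small scales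
the translates of the cone, and for lacunary frequencies a cone in `ℝ³` with many faces puts the
terms of a sum of products of trigonometric polynomials which behave like Haar functions into the
order of the binary tree, for which the maximal function is large. Gliding hump and the Lebesgue
density theorem give the divergence almost everywhere.
-/

set_option autoImplicit false

open MeasureTheory Metric Set Filter Topology FourierTransform
open scoped ENNReal NNReal Real RealInnerProductSpace ContDiff Pointwise SchwartzMap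

namespace Pool.Agent.Results.MP_ee701d_an.TypicalConvexBodies

/-- Euclidean space `ℝᵈ` -/
abbrev E (d : ℕ) := EuclideanSpace ℝ (Fin d)

/-- `S(A)G(x) = ∫_A e^{2πi x·ξ} G(ξ) dξ` -/
noncomputable def S {d : ℕ} (A : Set (E d)) (G : E d → ℂ) (x : E d) : ℂ :=
  ∫ ξ in A, Complex.exp (2 * Real.pi * Complex.I * ((⟪x, ξ⟫ : ℝ) : ℂ)) * G ξ

/-- the `L²` norm squared of the maximal function `sup_{R>0} |S(R•K)f̂|` -/
noncomputable def maxNormSq {d : ℕ} (K : ConvexBody (E d)) (f : 𝓢(E d, ℂ)) : ℝ≥0∞ :=
  ∫⁻ x, (⨆ (R : ℝ) (_ : 0 < R), ‖S (R • (K : Set (E d))) (𝓕 (f : E d → ℂ)) x‖ₑ) ^ 2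

/-- the maximal estimate `‖sup_{R>0} |S(R•K)f̂|‖₂ ≤ C ‖f‖₂` for all Schwartz functions `f` -/
def MaximalEstimate {d : ℕ} (K : ConvexBody (E d)) : Prop :=
  ∃ C : ℝ≥0, ∀ f : 𝓢(E d, ℂ), maxNormSq K f ≤ C * ∫⁻ x, ‖f x‖ₑ ^ 2

/-- there is `G ∈ L²(ℝᵈ)` such that for almost every `x` the partial integrals `S(R•K)G(x)` are
unbounded as `R → ∞`; by Plancherel `G = f̂` for some `f ∈ L²(ℝᵈ)` -/
def DivergesAE {d : ℕ} (K : ConvexBody (E d)) : Prop :=
  ∃ G : E d → ℂ, MemLp G 2 ∧ ∀ᵐ x : E d, ∀ B : ℝ, ∃ R : ℝ, B ≤ R ∧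
    B < ‖S (R • (K : Set (E d))) G x‖

theorem divergesAE_of_aeDiv {d : ℕ} {K : ConvexBody (E d)}
    (h : Pool.Agent.H311.CB.AeDiv (K : Set (E d))) : DivergesAE K := h

/-- **Typical convex bodies of `ℝᵈ`, `d ≥ 3`: divergence almost everywhere.** The space of convex
bodies with the Hausdorff metric is a Baire space; the bodies which satisfy a maximal estimate or
for which there is no `f ∈ L²(ℝᵈ)` whose partial integrals are unbounded at almost every point form
a meagre subset; and arbitrarily close to every convex body (for example the unit ball) there is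
one without any maximal estimate and with divergence almost everywhere. -/
theorem result {d : ℕ} (hd : 3 ≤ d) :
    BaireSpace (ConvexBody (E d)) ∧
    IsMeagre {K : ConvexBody (E d) | MaximalEstimate K ∨ ¬ DivergesAE K} ∧
    ∀ (K₀ : ConvexBody (E d)) (ε : ℝ), 0 < ε → ∃ K : ConvexBody (E d), dist K₀ K < ε ∧
      DivergesAE K ∧ ∀ C : ℝ≥0, ∃ f : 𝓢(E d, ℂ), C * ∫⁻ x, ‖f x‖ₑ ^ 2 < maxNormSq K f := by
  obtain ⟨k, rfl⟩ : ∃ k, d = k + 3 := ⟨d - 3, by omega⟩
  have hB : BaireSpace (ConvexBody (E (k + 3))) := Pool.Agent.H311.CB.baire (k + 3)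
  have hM1 : IsMeagre {K : ConvexBody (E (k + 3)) | MaximalEstimate K} :=
    Pool.Agent.H311.CB.meagre_estimate k
  have hM2 : IsMeagre {K : ConvexBody (E (k + 3)) | ¬ DivergesAE K} :=
    (Pool.Agent.H311.CB.typical_ae k).mono fun K hK h => hK (divergesAE_of_aeDiv h)
  have hM : IsMeagre {K : ConvexBody (E (k + 3)) | MaximalEstimate K ∨ ¬ DivergesAE K} := by
    have h := hM1.union hM2
    exact h
  refine ⟨hB, hM, fun K₀ ε hε => ?_⟩
  have hd : Dense {K : ConvexBody (E (k + 3)) | MaximalEstimate K ∨ ¬ DivergesAE K}ᶜ :=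
    dense_of_mem_residual hM
  obtain ⟨K, hK, hdist⟩ := Metric.dense_iff.1 hd K₀ ε hε
  have h3 : ¬ (MaximalEstimate K ∨ ¬ DivergesAE K) := hdist
  push Not at h3
  refine ⟨K, by rw [dist_comm]; exact hK, h3.2, fun C => ?_⟩
  by_contra hcon
  push Not at hcon
  exact h3.1 ⟨C, hcon⟩

end Pool.Agent.Results.MP_ee701d_an.TypicalConvexBodies
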